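import Mathlib
import Pool.Agent.TH444.MF.AsymB

/-!
# Sets of integers with no member a multiple of `k` others: size for large `k`

`g k n` is the largest size of a subset of `{1, …, n}` no member of which is a multiple of `k`
distinct other members. For large `k` and all `n ≥ n₀(k)`,
`1 - g k n / n = k ^ (-(1 + o(1)) log log k / log 2)`.
-/

set_option autoImplicit false
open Finset Real

namespace Pool.Agent.Results.MP_afae12_nt.DeficiencyExponent

/-- No element of `A` is a multiple of `k` distinct other elements of `A`. -/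
def MultFree (k : ℕ) (A : Finset ℕ) : Prop :=
  ∀ a ∈ A, ¬ ∃ B ⊆ A.erase a, B.card = k ∧ ∀ b ∈ B, b ∣ a

/-- The largest size of a `k`-multiple-free subset of `{1, …, n}`. -/
noncomputable def g (k n : ℕ) : ℕ :=
  sSup {m | ∃ A ⊆ Finset.Icc 1 n, MultFree k A ∧ A.card = m}

theorem multFree_iff (k : ℕ) (A : Finset ℕ) :
    MultFree k A ↔ ∀ a ∈ A, (A.filter (fun b => b ≠ a ∧ b ∣ a)).card < k := by
  constructor
  · intro h a ha
    by_contra hc
    push Not at hc
    obtain ⟨B, hB, hBc⟩ := exists_subset_card_eq hc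
    refine h a ha ⟨B, fun b hb => ?_, hBc, fun b hb => (mem_filter.1 (hB hb)).2.2⟩
    have := mem_filter.1 (hB hb)
    exact mem_erase.2 ⟨this.2.1, this.1⟩
  · rintro h a ha ⟨B, hB, hBc, hBd⟩
    have h1 : B ⊆ A.filter (fun b => b ≠ a ∧ b ∣ a) := by
      intro b hb
      have := mem_erase.1 (hB hb)
      exact mem_filter.2 ⟨this.2, this.1, hBd b hb⟩
    have h2 := card_le_card h1
    have h3 := h a ha
    omega

theorem bdd (k n : ℕ) : BddAbove {m | ∃ A ⊆ Finset.Icc 1 n, MultFree k A ∧ A.card = m} := by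
  refine ⟨n, ?_⟩
  rintro m ⟨A, hA, -, rfl⟩
  have := card_le_card hA
  rwa [Nat.card_Icc, Nat.add_sub_cancel] at this

theorem le_g {k n : ℕ} {A : Finset ℕ} (hA : A ⊆ Finset.Icc 1 n) (h : MultFree k A) :
    A.card ≤ g k n := le_csSup (bdd k n) ⟨A, hA, h, rfl⟩

theorem exists_g (k n : ℕ) : ∃ A ⊆ Finset.Icc 1 n, MultFree k A ∧ A.card = g k n := by
  have h := Nat.sSup_mem (s := {m | ∃ A ⊆ Finset.Icc 1 n, MultFree k A ∧ A.card = m})
    ⟨0, ∅, by simp, by intro a ha; simp at ha, by simp⟩ (bdd k n)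
  exact h

/-- For every `ε > 0`, all `k ≥ K(ε)` and all `n ≥ n₀(k, ε)`,
`k ^ (-(1+ε) log log k / log 2) ≤ 1 - g k n / n ≤ k ^ (-(1-ε) log log k / log 2)`. -/
theorem result (ε : ℝ) (hε : 0 < ε) : ∃ K : ℕ, ∀ k ≥ K, ∃ n₀ : ℕ, ∀ n ≥ n₀,
    (k : ℝ) ^ (-((1 + ε) * log (log k) / log 2)) ≤ 1 - (g k n : ℝ) / n ∧
      1 - (g k n : ℝ) / n ≤ (k : ℝ) ^ (-((1 - ε) * log (log k) / log 2)) := by
  have hd : 0 < min ε (1 / 2) := lt_min hε (by norm_num)
  have hd1 : min ε (1 / 2) < 1 := lt_of_le_of_lt (min_le_right _ _) (by norm_num)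
  have hdε : min ε (1 / 2) ≤ ε := min_le_left _ _
  obtain ⟨K₁, h₁⟩ := TH444.MF.lowerA _ hd hd1
  obtain ⟨K₂, h₂⟩ := TH444.MF.upperB _ hd hd1
  refine ⟨max (max K₁ K₂) 3, fun k hk => ?_⟩
  have hk1 : K₁ ≤ k := le_trans (le_trans (le_max_left _ _) (le_max_left _ _)) hk
  have hk2 : K₂ ≤ k := le_trans (le_trans (le_max_right _ _) (le_max_left _ _)) hk
  have hk3 : 3 ≤ k := le_trans (le_max_right _ _) hk
  obtain ⟨n₀, hn₀⟩ := h₂ k hk2
  refine ⟨max n₀ 1, fun n hn => ?_⟩
  have hn1 : n₀ ≤ n := le_trans (le_max_left _ _) hn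
  have hn2 : 1 ≤ n := le_trans (le_max_right _ _) hn
  have hn0 : (0 : ℝ) < n := by exact_mod_cast hn2
  have hkR : (3 : ℝ) ≤ k := by exact_mod_cast hk3
  have hk0 : (0 : ℝ) < k := by linarith
  have hL1 : 1 ≤ log (k : ℝ) := by
    rw [le_log_iff_exp_le hk0]
    have := exp_one_lt_d9
    linarith
  have hℓ : 0 ≤ log (log (k : ℝ)) := log_nonneg hL1
  have hlog2 : 0 < log 2 := log_pos (by norm_num)
  have hE : 0 ≤ log (k : ℝ) * log (log k) / log 2 :=
    div_nonneg (mul_nonneg (by linarith) hℓ) hlog2.le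
  have hr : ∀ c : ℝ, (k : ℝ) ^ (-(c * log (log k) / log 2)) =
      exp (-(c * (log k * log (log k) / log 2))) := by
    intro c
    rw [rpow_def_of_pos hk0]
    congr 1
    ring
  rw [hr, hr]
  constructor
  · obtain ⟨A, hA1, hA2, hA3⟩ := exists_g k n
    have h3 := hn₀ n hn1 A hA1 ((multFree_iff k A).1 hA2)
    rw [hA3] at h3
    have h4 : (g k n : ℝ) / n ≤ 1 - exp (-((1 + min ε (1 / 2)) *
        (log k * log (log k) / log 2))) := by
      rw [div_le_iff₀ hn0]; linarith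
    have h5 : exp (-((1 + ε) * (log k * log (log k) / log 2))) ≤
        exp (-((1 + min ε (1 / 2)) * (log k * log (log k) / log 2))) := by
      apply exp_le_exp.2
      nlinarith
    linarith
  · obtain ⟨A, hA1, hA2, hA3⟩ := h₁ k hk1 n
    have h3 := le_g hA1 ((multFree_iff k A).2 hA2)
    have h3' : (A.card : ℝ) ≤ g k n := by exact_mod_cast h3
    have h4 : 1 - exp (-((1 - min ε (1 / 2)) *
        (log k * log (log k) / log 2))) ≤ (g k n : ℝ) / n := by
      rw [le_div_iff₀ hn0]; linarith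
    have h5 : exp (-((1 - min ε (1 / 2)) * (log k * log (log k) / log 2))) ≤
        exp (-((1 - ε) * (log k * log (log k) / log 2))) := by
      apply exp_le_exp.2
      nlinarith
    linarith

end Pool.Agent.Results.MP_afae12_nt.DeficiencyExponent
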