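import Mathlib
import Pool.Agent.TH444.MF.LimitB

/-!
# Sets of integers with no member a multiple of `k` others: the density exists

`g k n` is the largest size of a subset of `{1, …, n}` no member of which is a multiple of `k`
distinct other members. For every `k` the limit of `g k n / n` exists.
-/

set_option autoImplicit false
open Finset Filter Topology

namespace Pool.Agent.Results.MP_afae12_nt.DensityExists

/-- No element of `A` is a multiple of `k` distinct other elements of `A`. -/
def MultFree (k : ℕ) (A : Finset ℕ) : Prop :=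
  ∀ a ∈ A, ¬ ∃ B ⊆ A.erase a, B.card = k ∧ ∀ b ∈ B, b ∣ a

/-- The largest size of a `k`-multiple-free subset of `{1, …, n}`. -/
noncomputable def g (k n : ℕ) : ℕ :=
  sSup {m | ∃ A ⊆ Finset.Icc 1 n, MultFree k A ∧ A.card = m}

theorem multFree_iff (k : ℕ) (A : Finset ℕ) : MultFree k A ↔ TH444.MF.MF k A := by
  constructor
  · intro h a ha
    by_contra hc
    push Not at hc
    obtain ⟨B, hB, hBc⟩ := exists_subset_card_eq hc
    refine h a ha ⟨B, fun b hb => ?_, hBc, fun b hb => (mem_filter.1 (hB hb)).2.2⟩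
    have := mem_filter.1 (hB hb)
    exact mem_erase.2 ⟨this.2.1, this.1⟩
  · rintro h a ha ⟨B, hB, hBc, hBd⟩
    have h1 : B ⊆ A.filter (fun b => b ≠ a ∧ b ∣ a) := by
      intro b hb
      have := mem_erase.1 (hB hb)
      exact mem_filter.2 ⟨this.2, this.1, hBd b hb⟩
    have h2 := card_le_card h1
    have h3 := h a ha
    omega

theorem bdd (k n : ℕ) : BddAbove {m | ∃ A ⊆ Finset.Icc 1 n, MultFree k A ∧ A.card = m} := by
  refine ⟨n, ?_⟩
  rintro m ⟨A, hA, -, rfl⟩
  have := card_le_card hA
  rwa [Nat.card_Icc, Nat.add_sub_cancel] at this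

theorem exists_g (k n : ℕ) : ∃ A ⊆ Finset.Icc 1 n, MultFree k A ∧ A.card = g k n := by
  have h := Nat.sSup_mem (s := {m | ∃ A ⊆ Finset.Icc 1 n, MultFree k A ∧ A.card = m})
    ⟨0, ∅, by simp, by intro a ha; simp at ha, by simp⟩ (bdd k n)
  exact h

/-- For every `k` there is `c` such that `g k n / n` tends to `c`. -/
theorem result (k : ℕ) : ∃ c : ℝ, Tendsto (fun n : ℕ => (g k n : ℝ) / n) atTop (𝓝 c) := by
  apply TH444.MF.limit_exists k (g k)
  · intro n A hA h
    exact le_csSup (bdd k n) ⟨A, hA, (multFree_iff k A).2 h, rfl⟩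
  · intro n
    obtain ⟨A, h1, h2, h3⟩ := exists_g k n
    exact ⟨A, h1, (multFree_iff k A).1 h2, h3⟩

end Pool.Agent.Results.MP_afae12_nt.DensityExists
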